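import Mathlib
import Pool.Agent.H47.Tree

namespace Pool.Agent.Results.MP_dcacc7_lc.NonTrivial
open Pool.Agent.H47.TreeDefs

theorem result : ∃ φ : Fm, (∀ v, cval v φ = true) ∧ ¬ Acceptable φ :=
  ⟨.imp (.and (.var 0) (.neg (.var 0))) (.var 1), fun v => by simp [cval], fun h => by
    simpa [letters] using Pool.Agent.H47.Tree.share _ _ h⟩

end Pool.Agent.Results.MP_dcacc7_lc.NonTrivial
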